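import Mathlib

/-!
# Covering subsets and the numbers `b n`
-/

namespace Pool.Agent.Lib_MP_390115_co

/-- `Q` is contained in `P` as a covering subset: there is an order embedding `f : Q ↪o P`
(so the image of `f`, with the order induced from `P`, is isomorphic to `Q`) which maps every
covering pair of `Q` to a covering pair of `P`. -/
def CoverEmbeds (Q P : Type) [PartialOrder Q] [PartialOrder P] : Prop :=
  ∃ f : Q ↪o P, ∀ x y : Q, x ⋖ y → f x ⋖ f y

/-- `P` contains every ordered set with at most `n` elements as a covering subset. -/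
def IsCoverUniversal (n : ℕ) (P : Type) [PartialOrder P] : Prop :=
  ∀ (Q : Type) [PartialOrder Q] [Fintype Q], Fintype.card Q ≤ n → CoverEmbeds Q P

/-- `b n` is the least size of a finite ordered set which contains every ordered set with at most
`n` elements as a covering subset. -/
noncomputable def b (n : ℕ) : ℕ :=
  sInf {m : ℕ | ∃ (P : Type) (_ : PartialOrder P) (_ : Fintype P),
    Fintype.card P = m ∧ IsCoverUniversal n P}

/-- The elements of the universal ordered set: an index `i < n` and, for every `j < i`, one of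
three states: `0` (not below), `1` (below but not covered), `2` (covered). -/
def U (n : ℕ) : Type := Σ i : Fin n, (Fin i.1 → Fin 3)

instance (n : ℕ) : Fintype (U n) := inferInstanceAs (Fintype (Σ i : Fin n, (Fin i.1 → Fin 3)))

theorem card_U (n : ℕ) : Fintype.card (U n) = (3 ^ n - 1) / 2 := by
  have h1 : Fintype.card (U n) = ∑ i : Fin n, 3 ^ i.1 := by
    have : Fintype.card (U n) = Fintype.card (Σ i : Fin n, (Fin i.1 → Fin 3)) := rfl
    rw [this, Fintype.card_sigma]
    simp
  rw [h1, Fin.sum_univ_eq_sum_range (fun i => 3 ^ i) n, Nat.geomSum_eq (by norm_num)]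

/-- The strict order of `U n`. -/
def ltU {n : ℕ} (x y : U n) : Prop :=
  ∃ h : x.1.1 < y.1.1, y.2 ⟨x.1.1, h⟩ ≠ 0 ∧
    ∀ k : Fin x.1.1, x.2 k ≠ 0 → y.2 ⟨k.1, k.2.trans h⟩ = 1

theorem ltU_irrefl {n : ℕ} (x : U n) : ¬ ltU x x := by
  rintro ⟨h, _⟩
  exact absurd h (lt_irrefl _)

theorem ltU_trans {n : ℕ} {x y z : U n} (h1 : ltU x y) (h2 : ltU y z) : ltU x z := by
  obtain ⟨a, b, c⟩ := h1
  obtain ⟨d, e, f⟩ := h2
  refine ⟨a.trans d, ?_, fun k hk => ?_⟩
  · have := f ⟨x.1.1, a⟩ b
    simp only at this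
    rw [this]
    decide
  · have h3 := c k hk
    have h4 := f ⟨k.1, k.2.trans a⟩ (by rw [h3]; decide)
    exact h4

instance (n : ℕ) : PartialOrder (U n) where
  le x y := x = y ∨ ltU x y
  lt x y := ltU x y
  le_refl x := Or.inl rfl
  le_trans := by
    rintro x y z (rfl | h1) (rfl | h2)
    · exact Or.inl rfl
    · exact Or.inr h2
    · exact Or.inr h1
    · exact Or.inr (ltU_trans h1 h2)
  le_antisymm := by
    rintro x y (rfl | h1) (h2 | h2)
    · rfl
    · rfl
    · exact h2.symm
    · exact absurd (ltU_trans h1 h2) (ltU_irrefl x)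
  lt_iff_le_not_ge := by
    intro x y
    constructor
    · intro h
      refine ⟨Or.inr h, ?_⟩
      rintro (rfl | h2)
      · exact ltU_irrefl _ h
      · exact ltU_irrefl _ (ltU_trans h h2)
    · rintro ⟨rfl | h, h2⟩
      · exact absurd (Or.inl rfl) h2
      · exact h

theorem lt_iff {n : ℕ} (x y : U n) : x < y ↔ ltU x y := Iff.rfl

theorem universal_U (n : ℕ) : IsCoverUniversal n (U n) := by
  classical
  intro Q _ _ hQ
  -- a linear extension, as an injective monotone map to `Fin n`
  let fL : Fintype (LinearExtension Q) := ‹Fintype Q›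
  have hL : @Fintype.card (LinearExtension Q) fL = Fintype.card Q := rfl
  let o : Fin (Fintype.card Q) ≃o LinearExtension Q :=
    @Fintype.orderIsoFinOfCardEq (LinearExtension Q) _ fL _ hL
  let e : Q → Fin n := fun x => Fin.castLE hQ (o.symm (toLinearExtension x))
  have hinj : Function.Injective e := by
    intro x y hxy
    have h1 : o.symm (toLinearExtension x) = o.symm (toLinearExtension y) := by
      simpa [e] using hxy
    exact o.symm.injective h1
  have hmono : ∀ x y, x < y → e x < e y := by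
    intro x y hxy
    have h1 : o.symm (toLinearExtension x) ≤ o.symm (toLinearExtension y) :=
      o.symm.monotone (toLinearExtension.monotone hxy.le)
    have h2 : e x ≤ e y := by simpa [e] using h1
    exact lt_of_le_of_ne h2 (fun h => hxy.ne (hinj h))
  let s : (y : Q) → Fin (e y).1 → Fin 3 := fun y k =>
    if ∃ x, (e x).1 = k.1 ∧ x ⋖ y then 2 else if ∃ x, (e x).1 = k.1 ∧ x < y then 1 else 0
  let g : Q → U n := fun y => ⟨e y, s y⟩
  have hs : ∀ x y (h : x < y), s y ⟨(e x).1, hmono x y h⟩ = if x ⋖ y then 2 else 1 := by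
    intro x y h
    have h1 : (∃ x', (e x').1 = (e x).1 ∧ x' ⋖ y) ↔ x ⋖ y := by
      constructor
      · rintro ⟨x', hx', hc⟩
        rwa [hinj (Fin.ext hx')] at hc
      · intro hc
        exact ⟨x, rfl, hc⟩
    have h2 : ∃ x', (e x').1 = (e x).1 ∧ x' < y := ⟨x, rfl, h⟩
    simp only [s, h1, h2, if_true]
  have hne : ∀ (y : Q) (k : Fin (e y).1), s y k ≠ 0 → ∃ x, (e x).1 = k.1 ∧ x < y := by
    intro y k hk
    by_contra hno
    apply hk
    have h1 : ¬ ∃ x, (e x).1 = k.1 ∧ x ⋖ y := by
      rintro ⟨x, hx, hc⟩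
      exact hno ⟨x, hx, hc.lt⟩
    simp only [s, h1, hno, if_false]
  have hlt : ∀ x y, g x < g y ↔ x < y := by
    intro x y
    rw [lt_iff]
    constructor
    · rintro ⟨h, h0, _⟩
      obtain ⟨x', hx', hlt⟩ := hne y _ h0
      rwa [hinj (Fin.ext hx')] at hlt
    · intro h
      refine ⟨hmono x y h, ?_, fun k hk => ?_⟩
      · have := hs x y h
        show s y ⟨(e x).1, hmono x y h⟩ ≠ 0
        rw [this]
        split_ifs <;> decide
      · obtain ⟨z, hz, hzx⟩ := hne x k hk
        have h3 := hs z y (hzx.trans h)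
        have h4 : ¬ z ⋖ y := fun hc => hc.2 hzx h
        rw [if_neg h4] at h3
        show s y _ = 1
        rw [← h3]
        congr 1
        exact Fin.ext hz.symm
  have hginj : Function.Injective g := by
    intro x y hxy
    exact hinj (congrArg Sigma.fst hxy)
  refine ⟨⟨⟨g, hginj⟩, ?_⟩, ?_⟩
  · intro x y
    show g x ≤ g y ↔ x ≤ y
    rw [le_iff_lt_or_eq, le_iff_lt_or_eq, hlt, hginj.eq_iff]
  · intro x y hxy
    refine ⟨(hlt x y).2 hxy.lt, ?_⟩
    intro c hc1 hc2
    have hc1' : ltU (g x) c := hc1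
    have hc2' : ltU c (g y) := hc2
    obtain ⟨h1, h2, _⟩ := hc1'
    obtain ⟨h3, _, h4⟩ := hc2'
    have h5 := h4 ⟨(g x).1.1, h1⟩ h2
    have h6 := hs x y hxy.lt
    rw [if_pos hxy] at h6
    have h7 : (g y).2 ⟨(g x).1.1, h1.trans h3⟩ = 1 := h5
    have h8 : (g y).2 ⟨(g x).1.1, h1.trans h3⟩ = 2 := h6
    rw [h7] at h8
    exact absurd h8 (by decide)

/-- The set defining `b n` is nonempty, with the explicit member `(3 ^ n - 1) / 2`. -/
theorem mem_upper (n : ℕ) : (3 ^ n - 1) / 2 ∈ {m : ℕ | ∃ (P : Type) (_ : PartialOrder P)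
    (_ : Fintype P), Fintype.card P = m ∧ IsCoverUniversal n P} :=
  ⟨U n, inferInstance, inferInstance, card_U n, universal_U n⟩

theorem b_le (n : ℕ) : b n ≤ (3 ^ n - 1) / 2 := Nat.sInf_le (mem_upper n)

/-- `b n` is attained. -/
theorem b_spec (n : ℕ) : ∃ (P : Type) (_ : PartialOrder P) (_ : Fintype P),
    Fintype.card P = b n ∧ IsCoverUniversal n P :=
  Nat.sInf_mem ⟨_, mem_upper n⟩

end Pool.Agent.Lib_MP_390115_co
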