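import Pool.Agent.Lib_MP_390115_co.Basic

/-!
# A lower bound for `b n`: `3 ^ (a * c) ≤ b n ^ (a + c)` whenever `2 * a + c ≤ n`
-/

namespace Pool.Agent.Lib_MP_390115_co

/-- The elements of the test posets: `x i`, `y i` (`i < a`) and `z j` (`j < c`). -/
inductive T (a c : ℕ) : Type
  | x : Fin a → T a c
  | y : Fin a → T a c
  | z : Fin c → T a c

/-- `T a c` is a disjoint union of three finite types. -/
def T.equiv (a c : ℕ) : T a c ≃ (Fin a ⊕ Fin a) ⊕ Fin c where
  toFun t := match t with
    | T.x i => Sum.inl (Sum.inl i)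
    | T.y i => Sum.inl (Sum.inr i)
    | T.z j => Sum.inr j
  invFun s := match s with
    | Sum.inl (Sum.inl i) => T.x i
    | Sum.inl (Sum.inr i) => T.y i
    | Sum.inr j => T.z j
  left_inv t := by cases t <;> rfl
  right_inv s := by rcases s with (s | s) | s <;> rfl

/-- The strict order given by a pattern `M`: `x i < y i`, `y i < z j` iff `M i j = 1`, and
`x i < z j` iff `M i j ≠ 0`. -/
def T.lt {a c : ℕ} (M : Fin a → Fin c → Fin 3) : T a c → T a c → Prop
  | T.x i, T.y i' => i = i'
  | T.y i, T.z j => M i j = 1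
  | T.x i, T.z j => M i j ≠ 0
  | _, _ => False

theorem T.lt_irrefl {a c : ℕ} (M : Fin a → Fin c → Fin 3) (t : T a c) : ¬ T.lt M t t := by
  cases t <;> simp [T.lt]

theorem T.lt_trans {a c : ℕ} (M : Fin a → Fin c → Fin 3) {r s t : T a c} (h1 : T.lt M r s)
    (h2 : T.lt M s t) : T.lt M r t := by
  cases r <;> cases s <;> cases t <;> simp_all [T.lt]

/-- The poset with pattern `M`. -/
@[instance_reducible]
def T.order {a c : ℕ} (M : Fin a → Fin c → Fin 3) : PartialOrder (T a c) where
  le r s := r = s ∨ T.lt M r s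
  lt r s := T.lt M r s
  le_refl r := Or.inl rfl
  le_trans := by
    rintro x y z (rfl | h1) (rfl | h2)
    · exact Or.inl rfl
    · exact Or.inr h2
    · exact Or.inr h1
    · exact Or.inr (T.lt_trans M h1 h2)
  le_antisymm := by
    rintro x y (rfl | h1) (h2 | h2)
    · rfl
    · rfl
    · exact h2.symm
    · exact absurd (T.lt_trans M h1 h2) (T.lt_irrefl M x)
  lt_iff_le_not_ge := by
    intro x y
    constructor
    · intro h
      refine ⟨Or.inr h, ?_⟩
      rintro (rfl | h2)
      · exact T.lt_irrefl M _ h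
      · exact T.lt_irrefl M _ (T.lt_trans M h h2)
    · rintro ⟨rfl | h, h2⟩
      · exact absurd (Or.inl rfl) h2
      · exact h

/-- For every pattern, the universal ordered set contains elements `x i`, `z j` from which the
pattern can be read off. -/
theorem exists_pattern {n : ℕ} {P : Type} [PartialOrder P] (hP : IsCoverUniversal n P) {a c : ℕ}
    (h : 2 * a + c ≤ n) (M : Fin a → Fin c → Fin 3) :
    ∃ (f : Fin a → P) (g : Fin c → P), ∀ i j, (M i j ≠ 0 ↔ f i < g j) ∧
      (M i j = 2 ↔ f i ⋖ g j) := by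
  let _ : PartialOrder (T a c) := T.order M
  let _ : Fintype (T a c) := Fintype.ofEquiv _ (T.equiv a c).symm
  have hcard : Fintype.card (T a c) ≤ n := by
    rw [Fintype.card_congr (T.equiv a c)]
    simp only [Fintype.card_sum, Fintype.card_fin]
    omega
  obtain ⟨F, hF⟩ := hP (T a c) hcard
  refine ⟨fun i => F (T.x i), fun j => F (T.z j), fun i j => ?_⟩
  have hlt : ∀ r s : T a c, r < s ↔ T.lt M r s := fun r s => Iff.rfl
  have h1 : M i j ≠ 0 ↔ F (T.x i) < F (T.z j) := by
    rw [F.lt_iff_lt, hlt]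
    rfl
  refine ⟨h1, ?_⟩
  constructor
  · intro h2
    refine hF _ _ ⟨(hlt _ _).2 (by show M i j ≠ 0; rw [h2]; decide), ?_⟩
    intro t ht1 ht2
    rw [hlt] at ht1 ht2
    cases t with
    | x k => exact ht1
    | y k =>
      have e1 : i = k := ht1
      have e2 : M k j = 1 := ht2
      rw [← e1, h2] at e2
      exact absurd e2 (by decide)
    | z k => exact ht2
  · intro h2
    by_contra h3
    have h4 : M i j ≠ 0 := h1.2 h2.lt
    have h5 : M i j = 1 := by
      generalize M i j = v at h3 h4
      fin_cases v <;> simp_all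
    have h6 : (T.x i : T a c) < T.y i := (hlt _ _).2 rfl
    have h7 : (T.y i : T a c) < T.z j := (hlt _ _).2 h5
    exact h2.2 (F.lt_iff_lt.2 h6) (F.lt_iff_lt.2 h7)

/-- Counting bound. -/
theorem pow_le (n a c : ℕ) (h : 2 * a + c ≤ n) : 3 ^ (a * c) ≤ b n ^ (a + c) := by
  obtain ⟨P, _, _, hcard, hP⟩ := b_spec n
  choose f g hfg using fun M => exists_pattern hP h M
  have hinj : Function.Injective (fun M : Fin a → Fin c → Fin 3 => (f M, g M)) := by
    intro M M' hM
    simp only [Prod.mk.injEq] at hM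
    funext i j
    have h1 := hfg M i j
    have h2 := hfg M' i j
    rw [hM.1, hM.2] at h1
    have h3 : M i j ≠ 0 ↔ M' i j ≠ 0 := h1.1.trans h2.1.symm
    have h4 : M i j = 2 ↔ M' i j = 2 := h1.2.trans h2.2.symm
    generalize M i j = u at h3 h4
    generalize M' i j = v at h3 h4
    revert u v
    decide
  have := Fintype.card_le_of_injective _ hinj
  simp only [Fintype.card_pi, Finset.prod_const, Fintype.card_prod, Finset.card_univ,
    Fintype.card_fin, hcard] at this
  rw [pow_add, mul_comm a c, pow_mul]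
  exact this

end Pool.Agent.Lib_MP_390115_co
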